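import Pool.Agent.Q178.BR.Basic

/-! A non-convex left Bregman Chebyshev set for a non-supercoercive Legendre function, in every
dimension at least two. -/

open Set

namespace Pool.Agent.Results.MP_bd7f44_an.ParabolaArc

open Pool.Agent.Q178.BR

theorem result (n : ℕ) (hn : 2 ≤ n) :
    ∃ f : E n → EReal, IsLegendre f ∧ dom f = univ ∧ ¬ Supercoercive f ∧
      ∃ C ⊆ interior (dom f), C.Nonempty ∧ IsCompact C ∧ LeftChebyshev f C ∧ ¬ Convex ℝ C := by
  set i₀ : Fin n := ⟨0, by omega⟩
  set i₁ : Fin n := ⟨1, by omega⟩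
  have h01 : i₀ ≠ i₁ := by
    intro h
    have := congrArg Fin.val h
    simp [i₀, i₁] at this
  have hdom : dom (fun x => ((F i₁ x : ℝ) : EReal)) = univ := by
    ext x; simp [dom, EReal.coe_lt_top]
  refine ⟨fun x => ((F i₁ x : ℝ) : EReal), legendre i₁, hdom, not_super i₁,
    c i₀ i₁ '' Icc (0 : ℝ) 1, ?_, (nonempty_Icc.mpr (zero_le_one' ℝ)).image _,
    curve_compact i₀ i₁, cheb h01, not_convex h01⟩
  rw [hdom, interior_univ]
  exact subset_univ _

end Pool.Agent.Results.MP_bd7f44_an.ParabolaArc
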